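import Pool.Agent.Helper16.DIL.Spec

/-! # DIL, part C1 -/

set_option autoImplicit false

namespace Pool.Agent.Helper70.DIL.C1

open Finset Pool.Agent.Helper16.DIL

theorem val_prod {ι : Type} (s : Finset ι) (p : ℕ) [Fact p.Prime] (f : ι → ℚ)
    (hf : ∀ i ∈ s, f i ≠ 0) :
    padicValRat p (∏ i ∈ s, f i) = ∑ i ∈ s, padicValRat p (f i) := by
  classical
  induction s using Finset.induction_on with
  | empty => simp
  | insert a s ha ih =>
      rw [Finset.prod_insert ha, Finset.sum_insert ha, padicValRat.mul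
        (hf a (Finset.mem_insert_self a s))
        (Finset.prod_ne_zero_iff.2 fun i hi => hf i (Finset.mem_insert_of_mem hi)),
        ih fun i hi => hf i (Finset.mem_insert_of_mem hi)]

theorem main : S_C1 := by
  intro J x k w n hn hP p
  by_cases hp : p.Prime
  swap
  · refine Finset.sum_eq_zero fun i _ => ?_
    simp [vp, Nat.factorization_eq_zero_of_not_prime _ hp]
  have := Fact.mk hp
  have hnpos : ∀ i, (0 : ℝ) < n i := fun i => by exact_mod_cast hn i
  have h3 : 0 < ∏ i, ((n i : ℝ)) ^ (x (w i) - x (w (i + 1))) :=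
    Finset.prod_pos fun i _ => zpow_pos (hnpos i) _
  have h2 : Real.log (∏ i, ((n i : ℝ)) ^ (x (w i) - x (w (i + 1)))) = 0 := by
    rw [Real.log_prod (fun i _ => (zpow_pos (hnpos i) _).ne')]
    simp only [Real.log_zpow]
    exact hP
  have h1 : ∏ i, ((n i : ℝ)) ^ (x (w i) - x (w (i + 1))) = 1 :=
    Real.eq_one_of_pos_of_log_eq_zero h3 h2
  have h4 : ∏ i, ((n i : ℚ)) ^ (x (w i) - x (w (i + 1))) = 1 := by
    have h : ((∏ i, ((n i : ℚ)) ^ (x (w i) - x (w (i + 1))) : ℚ) : ℝ) = ((1 : ℚ) : ℝ) := by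
      rw [Rat.cast_prod, Rat.cast_one, ← h1]
      refine Finset.prod_congr rfl fun i _ => ?_
      rw [Rat.cast_zpow, Rat.cast_natCast]
    exact Rat.cast_injective h
  have h5 : padicValRat p (∏ i, ((n i : ℚ)) ^ (x (w i) - x (w (i + 1)))) = 0 := by
    rw [h4]; simp
  rw [val_prod _ p _ (fun i _ => zpow_ne_zero _ (by
    have := hn i
    exact_mod_cast (by omega : n i ≠ 0)))] at h5
  have h6 : ∑ i, ((x (w i) - x (w (i + 1)) : ℤ)) * ((n i).factorization p : ℤ) = 0 := by
    rw [← h5]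
    refine Finset.sum_congr rfl fun i _ => ?_
    rw [padicValRat.zpow, padicValRat.of_nat, Nat.factorization_def _ hp]
  have h7 := congrArg (fun z : ℤ => (z : ℚ)) h6
  simp only [Int.cast_sum, Int.cast_mul, Int.cast_zero, Int.cast_natCast] at h7
  exact h7

end Pool.Agent.Helper70.DIL.C1
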